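import Pool.Agent.Work.MP_db9399_oc_helper61.Asm2

/-!
# MP_db9399, OCB4, block ASM: `Stmt_OCB4` from `Stmt_SAS` and `Stmt_BAS` (helper61)
-/

set_option autoImplicit false
set_option linter.unusedSectionVars false

namespace Pool.Agent.Work.MP_db9399_oc.helper61

open Finset Classical
open Pool.Agent.Work.MP_db9399_all (nb)
open Pool.Agent.Work.MP_db9399_lt (us)
open Pool.Agent.Work.MP_db9399_da hiding qV
open Pool.Agent.Work.MP_db9399_xf
open Pool.Agent.Work.MP_db9399_x4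
open Pool.Agent.Work.MP_db9399_oc

universe u

section

variable {V : Type u} [Fintype V] {N J : ℕ} {D : OD V N J} {U : Finset V} {cR : V → ℕ}
  {q : Fin N → Bool → Bool → ℕ → ℕ} {rg : V → ℕ}

/-- `non` -/
theorem non_K {k : Con} {c' : ℝ} {τ : V → ℕ} {σ : Fin N → Bool → Bool → ℕ → ℕ → ℕ}
    {Sl Lg : Fin N → Bool → Bool → ℕ → Finset V} (H : Hyp k c' D)
    (hR : D.Rsv k.e k.η' c' U cR) (hq : D.Dem q) (hI : D.I5 c' q τ σ)
    (hS : D.Slt U cR q rg τ σ Sl) (hL : D.Lgs k.e U cR q rg Sl Lg)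
    (hθ : ∀ s, (4 * (k.M * (D.X1 + 5 * D.K + 5)) : ℕ) * Real.sqrt (D.S s).θ ≤ k.e / 16)
    (hd : (D.d : ℝ) ^ (1 - c' / 8) ≤ k.e / 4 * D.d) (he : 0 < k.e)
    {c0 : V → ℕ} (hc0 : ∀ n b, D.X.P.ty n = Ty.K →
        ((∑ w ∈ univ.filter (fun w => InT D.X Ty.B w ∧ c0 w = b),
          (nb D.G w ∩ pV D.X.P n).card : ℕ) : ℝ) ≤ k.e / 8 * D.d)
    {n : Fin N} (hn : D.X.P.ty n = Ty.K) (hnd : (pV D.X.P n).card < D.d) {b : ℕ}
    (hb : ∀ y ∈ U, D.X.P.pc y = n → cR y ≠ b) (T1 T2 : Finset V) (c1 : V → ℕ) (τ0 : ℝ)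
    (hoc : ∀ w, b ∈ oc c0 c1 T1 T2 w → b = c0 w ∨ At D (fun n β i b => Sl n β i b ∪ Lg n β i b) w b) :
    ((∑ w ∈ univ.filter (fun w => InT D.X Ty.B w ∧ b ∈ oc c0 c1 T1 T2 w ∧
      ((nb D.G w ∩ pV D.X.P n).card : ℝ) < τ0 * D.d), (nb D.G w ∩ pV D.X.P n).card : ℕ) : ℝ) ≤
      k.e / 2 * D.d := by
  have hd0 : (0 : ℝ) ≤ D.d := Nat.cast_nonneg _
  have hZ := Zs_of hq hS hL
  set Z : Fin N → Bool → Bool → ℕ → Finset V := fun n β i b => Sl n β i b ∪ Lg n β i b with hZd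
  rcases (pV D.X.P n).eq_empty_or_nonempty with h0 | ⟨v0, hv0⟩
  · rw [sum_eq_zero fun w _ => by rw [h0, inter_empty, card_empty]]
    rw [Nat.cast_zero]
    positivity
  have hv0' := mem_pVA.1 hv0
  obtain ⟨kk, hkk⟩ := Option.ne_none_iff_exists'.1 (H.pc.cln v0 hv0'.1)
  have hin : D.inC n kk := ⟨v0, hv0, hkk⟩
  have hbH : b ∉ D.Hd k.e kk := by
    intro h
    obtain ⟨y, hy, h1, h2⟩ := hR.hc n hn hnd kk hin b h
    exact hb y hy h1 h2
  set f : V → ℕ := fun w => (nb D.G w ∩ pV D.X.P n).card with hf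
  have hsum : ∑ w ∈ univ.filter (fun w => InT D.X Ty.B w ∧ b ∈ oc c0 c1 T1 T2 w ∧
      ((nb D.G w ∩ pV D.X.P n).card : ℝ) < τ0 * D.d), f w ≤
      ∑ w ∈ univ.filter (fun w => InT D.X Ty.B w ∧ c0 w = b), f w +
      ∑ w ∈ univ.filter (fun w => At D Z w b ∧ D.X.cq w = some kk), f w +
      ∑ w ∈ univ.filter (fun w => D.Pot q τ σ w b ∧ D.X.cq w ≠ some kk), f w +
      ∑ w ∈ univ.filter (fun w => (∃ m β i, w ∈ Lg m β i b) ∧ D.X.cq w ≠ some kk), f w := by
    rw [sum_filter, sum_filter, sum_filter, sum_filter, sum_filter, ← sum_add_distrib,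
      ← sum_add_distrib, ← sum_add_distrib]
    refine sum_le_sum fun w _ => ?_
    by_cases h1 : InT D.X Ty.B w ∧ b ∈ oc c0 c1 T1 T2 w ∧
      ((nb D.G w ∩ pV D.X.P n).card : ℝ) < τ0 * D.d
    · rw [if_pos h1]
      rcases hoc w h1.2.1 with h2 | h2
      · rw [if_pos (show InT D.X Ty.B w ∧ c0 w = b from ⟨h1.1, h2.symm⟩)]
        omega
      · by_cases h3 : D.X.cq w = some kk
        · rw [if_pos (show At D Z w b ∧ D.X.cq w = some kk from ⟨h2, h3⟩)]
          omega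
        · rcases mem_union.1 h2 with h4 | h4
          · rw [if_pos (show D.Pot q τ σ w b ∧ D.X.cq w ≠ some kk from
              ⟨hS.pt _ _ _ _ w h4, h3⟩)]
            omega
          · rw [if_pos (show (∃ m β i, w ∈ Lg m β i b) ∧ D.X.cq w ≠ some kk from
              ⟨⟨_, _, _, h4⟩, h3⟩)]
            omega
    · rw [if_neg h1]
      exact Nat.zero_le _
  have e1 := hc0 n b hn
  have e2 : ((∑ w ∈ univ.filter (fun w => At D Z w b ∧ D.X.cq w = some kk), f w : ℕ) : ℝ) ≤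
      k.e / 16 * D.d := by
    have h1 := near_card hZ hq (H.pc.npc kk) hbH
    have h2 : ∀ w ∈ univ.filter (fun w => At D Z w b ∧ D.X.cq w = some kk),
        (f w : ℝ) ≤ Real.sqrt (D.S (D.X.sc n)).θ * D.d := by
      intro w hw
      obtain ⟨_, h3, h4⟩ := mem_filter.1 hw
      have h5 := hZ.avA h3
      have h6 : D.X.sc (D.X.P.pc w) = D.X.sc n := by
        have := H.pc.scq w v0 h5.1.1 hv0'.1 (h4.trans hkk.symm)
        rw [this, hv0'.2]
      have h7 := h5.2.2.1.thin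
      unfold OD.sl at h7
      rw [h6] at h7
      refine le_trans ?_ h7
      have h8 : nb D.G w ∩ pV D.X.P n ⊆ nb (thin D.G D.X.P) w := by
        intro y hy
        obtain ⟨h9, h10⟩ := mem_inter.1 hy
        refine mem_nbA.2 (not_bulk_of h5.1 ?_ (mem_nbA.1 h9))
        intro h11
        have h12 := h11.2
        rw [(mem_pVA.1 h10).2, hn] at h12
        cases h12
      exact_mod_cast card_le_card h8
    push_cast
    calc ∑ w ∈ univ.filter (fun w => At D Z w b ∧ D.X.cq w = some kk), (f w : ℝ)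
        ≤ ∑ w ∈ univ.filter (fun w => At D Z w b ∧ D.X.cq w = some kk),
            Real.sqrt (D.S (D.X.sc n)).θ * D.d := sum_le_sum h2
      _ = ((univ.filter (fun w => At D Z w b ∧ D.X.cq w = some kk)).card : ℝ) *
            (Real.sqrt (D.S (D.X.sc n)).θ * D.d) := by rw [sum_const, nsmul_eq_mul]
      _ ≤ ((4 * (k.M * (D.X1 + 5 * D.K + 5)) : ℕ) : ℝ) *
            (Real.sqrt (D.S (D.X.sc n)).θ * D.d) := by
          refine mul_le_mul_of_nonneg_right ?_ (by positivity)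
          exact_mod_cast h1
      _ = (((4 * (k.M * (D.X1 + 5 * D.K + 5)) : ℕ) : ℝ) *
            Real.sqrt (D.S (D.X.sc n)).θ) * D.d := by ring
      _ ≤ _ := mul_le_mul_of_nonneg_right (hθ _) hd0
  have e3 : ((∑ w ∈ univ.filter (fun w => D.Pot q τ σ w b ∧ D.X.cq w ≠ some kk), f w : ℕ) : ℝ) ≤
      k.e / 4 * D.d := by
    by_cases hlt : b < D.d + 2
    · exact (hI.potK n kk b hn hin hlt).trans hd
    · have h1 : univ.filter (fun w => D.Pot q τ σ w b ∧ D.X.cq w ≠ some kk) = ∅ := by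
        rw [filter_eq_empty_iff]
        rintro w _ ⟨h2, _⟩
        obtain ⟨_, _, j, hj, _⟩ := h2
        rw [hq.pz _ _ _ _ (Or.inr (Or.inl (by omega)))] at hj
        exact absurd hj (Nat.not_lt_zero _)
      rw [h1, sum_empty, Nat.cast_zero]
      positivity
  have e4 := hL.kt n kk b hn hin hbH
  have e5 : ((∑ w ∈ univ.filter (fun w => InT D.X Ty.B w ∧ b ∈ oc c0 c1 T1 T2 w ∧
      ((nb D.G w ∩ pV D.X.P n).card : ℝ) < τ0 * D.d), f w : ℕ) : ℝ) ≤
      ((∑ w ∈ univ.filter (fun w => InT D.X Ty.B w ∧ c0 w = b), f w : ℕ) : ℝ) +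
      ((∑ w ∈ univ.filter (fun w => At D Z w b ∧ D.X.cq w = some kk), f w : ℕ) : ℝ) +
      ((∑ w ∈ univ.filter (fun w => D.Pot q τ σ w b ∧ D.X.cq w ≠ some kk), f w : ℕ) : ℝ) +
      ((∑ w ∈ univ.filter (fun w => (∃ m β i, w ∈ Lg m β i b) ∧
        D.X.cq w ≠ some kk), f w : ℕ) : ℝ) := by
    exact_mod_cast hsum
  refine e5.trans ?_
  linarith

/-- the fields of `OcbX4` -/
theorem ocb_of {k : Con} {c' : ℝ} {τ : V → ℕ} {σ : Fin N → Bool → Bool → ℕ → ℕ → ℕ}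
    {Sl Lg : Fin N → Bool → Bool → ℕ → Finset V} (H : Hyp k c' D)
    (hR : D.Rsv k.e k.η' c' U cR) (hq : D.Dem q) (hI0 : D.I0 rg) (hI : D.I5 c' q τ σ)
    (hS : D.Slt U cR q rg τ σ Sl) (hL : D.Lgs k.e U cR q rg Sl Lg)
    (hθ : ∀ s, (4 * (k.M * (D.X1 + 5 * D.K + 5)) : ℕ) * Real.sqrt (D.S s).θ ≤ k.e / 16)
    (hd : (D.d : ℝ) ^ (1 - c' / 8) ≤ k.e / 4 * D.d) (he : 0 < k.e) {η' : ℝ} (hη : k.η' ≤ η')
    {x : Fin J → ℝ} (hx1 : ∀ s, 2 * (D.d : ℝ) ^ (-c') ≤ x s) (hx2 : ∀ s, 1 ≤ x s * D.d)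
    {c0 : V → ℕ}
    (b1 : ∀ v, InT D.X Ty.B v → c0 v ∈ D.Qn (D.X.P.pc v) (D.X.P.pt v) ∧
      c0 v ∉ BnZ D U cR (fun n β i b => Sl n β i b ∪ Lg n β i b) v)
    (b2 : ∀ v w, InT D.X Ty.B v → InT D.X Ty.B w → D.G.Adj v w → c0 v ≠ c0 w)
    (b3 : ∀ n b, D.X.P.ty n = Ty.K →
        ((∑ w ∈ univ.filter (fun w => InT D.X Ty.B w ∧ c0 w = b),
          (nb D.G w ∩ pV D.X.P n).card : ℕ) : ℝ) ≤ k.e / 8 * D.d) :
    OcbX4 k.τ (k.e / 2) η' (KX4 k.C k.πk) x D.S D.G D.d D.X D.t D.cN D.Qn D.P2n c0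
      (c1Z D (fun n β i b => Sl n β i b ∪ Lg n β i b))
      (T1Z D (fun n β i b => Sl n β i b ∪ Lg n β i b))
      (T2Z D (fun n β i b => Sl n β i b ∪ Lg n β i b)) U cR := by
  have hZ := Zs_of hq hS hL
  set Z : Fin N → Bool → Bool → ℕ → Finset V := fun n β i b => Sl n β i b ∪ Lg n β i b with hZd
  have hd0 : (0 : ℝ) ≤ D.d := Nat.cast_nonneg _
  refine
    { UK := hR.base.UK
      Uc := fun n hn => (hR.base.Uc n hn).trans (mul_le_mul_of_nonneg_right hη hd0)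
      Ui := hR.base.Ui
      Ua := hR.base.Ua
      Ul := hR.base.Ul
      Uf := hR.base.Uf
      Uo := hR.base.Uo
      Ub := hR.base.Ub
      TB := fun v hv => (hZ.avA (hZ.mem_T12 hv)).1
      T12 := ?_
      c0Q := fun v hv _ => (b1 v hv).1
      c1P := fun v hv => (hZ.mem_T1 hv).1
      c2P := ?_
      c1F := fun v hv => (hZ.avA (hZ.mem_T12 hv)).2.1
      pcc := fun v w hv hw hvw => pcc hZ hq (fun v hv => (b1 v hv).2) b2 hv hw hvw
      pco := ?_
      bal := fun n hn β b hb => bal hZ hq hn β hb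
      T1c := ?_
      hlf := ?_
      unm := fun n hn v => unm hZ hI0 hn v
      n2 := ?_
      nQ := ?_
      rsv := ?_
      non := ?_ }
  · rw [disjoint_left]
    intro v hv hv'
    exact (hZ.mem_T2 hv').1 (hZ.mem_T1 hv).1
  · intro v hv
    obtain ⟨h1, h2⟩ := hZ.mem_T2 hv
    have h3 := hZ.qpos h2
    have h4 := hZ.lt h2
    have h5 := (hZ.avA h2).1
    have h6 : c1Z D Z v ∈ D.P2n (D.X.P.pc v) ∪ D.Qn (D.X.P.pc v) (!(D.X.P.pt v)) := by
      by_contra h7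
      rw [mem_union, not_or] at h7
      refine h1 ?_
      unfold OD.P P1
      rw [mem_sdiff, mem_range]
      refine ⟨h4, fun h9 => ?_⟩
      have h8 : c1Z D Z v ∉ D.Qn (D.X.P.pc v) (D.X.P.pt v) := by
        intro h10
        rw [hq.pz _ _ _ _ (Or.inr (Or.inr h10))] at h3
        exact lt_irrefl _ h3
      rcases mem_union.1 h9 with h9 | h9
      · rcases mem_union.1 h9 with h9 | h9
        · cases h11 : D.X.P.pt v
          · rw [h11] at h8
            exact h8 h9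
          · rw [h11] at h7
            exact h7.2 h9
        · cases h11 : D.X.P.pt v
          · rw [h11] at h7
            exact h7.2 h9
          · rw [h11] at h8
            exact h8 h9
      · exact h7.1 h9
    refine ⟨?_, h6⟩
    cases h7 : D.X.P.sd v
    · rfl
    · exfalso
      rw [h7] at h3
      rcases mem_union.1 h6 with h8 | h8
      · rw [(hq.p2 _ h5.2 (D.X.P.pt v) _ h8).2] at h3
        exact lt_irrefl _ h3
      · rw [(hq.pq _ h5.2 (D.X.P.pt v) _ h8).2] at h3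
        exact lt_irrefl _ h3
  · intro v w hv hw hvw hc
    rcases hZ.mem_oc hc with h | h
    · refine (b1 v hv).2 ?_
      refine mem_filter.2 ⟨?_, Or.inr (Or.inl ⟨w, hw, hvw, h⟩)⟩
      exact H.sel.Qlt _ (Or.inr hv.2) _ (b1 v hv).1
    · exact (hZ.avA h).2.2.2.1 w hw hvw rfl
  · intro n hn b
    obtain ⟨h1, h2⟩ := T1_card hZ hq hn b
    by_cases hb : b ∈ D.P n
    · have h3 := H.rg.supB n hn b (mem_range.2 (P_lt hb))
      have h4 : (((Tn D.X n (T1Z D Z)).filter (fun v => c1Z D Z v.1 = b)).card : ℝ) ≤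
          ((D.sn n b).natAbs : ℝ) := by exact_mod_cast h1 hb
      have h5 : ((D.sn n b).natAbs : ℝ) = |((D.sn n b : ℤ) : ℝ)| := by
        rw [← Int.cast_abs, Int.abs_eq_natAbs]
        rfl
      rw [h5] at h4
      refine h4.trans (h3.trans ?_)
      exact mul_le_mul_of_nonneg_right (hx1 _) hd0
    · rw [h2 hb, Nat.cast_zero]
      have := hx2 (D.X.sc n)
      linarith
  · intro n hn β
    rw [T1_qtr hZ hn, T1_qtr hZ hn]
    have h1 := hq.bl n hn β
    have h2 : |(((∑ b ∈ D.P n, q n β false b : ℕ) : ℝ) -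
        ((∑ b ∈ D.P n, q n β true b : ℕ) : ℝ))| ≤ 1 := by
      exact_mod_cast h1
    exact h2.trans (hx2 _)
  · intro n hn i b hb
    have h0 : b < D.d + 2 := mem_range.1 (H.sel.Plt n (Or.inr hn) hb)
    have h1 : b ∉ D.P n := by
      intro h
      exact (mem_sdiff.1 h).2 (mem_union_right _ hb)
    have h2 := T2_sub hZ hn i h0 h1
    rw [(hq.p2 n hn i b hb).1, H.K] at h2
    exact h2
  · intro n hn i b hb
    have h0 : b < D.d + 2 := mem_range.1 (H.sel.Qlt n (Or.inr hn) _ hb)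
    have h1 : b ∉ D.P n := by
      intro h
      refine (mem_sdiff.1 h).2 (mem_union_left _ ?_)
      cases i
      · exact mem_union_right _ hb
      · exact mem_union_left _ hb
    have h2 := T2_sub hZ hn i h0 h1
    have h3 := (hq.pq n hn i b hb).1
    have h4 : (0 : ℤ) ≤ (q n false i b : ℤ) + D.sn n b := by
      rw [h3]
      have := le_max_left (-D.sn n b) 0
      linarith
    have h5 : ((q n false i b : ℕ) : ℤ) ≤ (((Tn D.X n (T2Z D Z)).filter
      (fun v => ptn D.X.P n v = i ∧ c1Z D Z v.1 = b)).card : ℤ) := by exact_mod_cast h2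
    have h6 : sg (Fp (xt D.G D.X) D.X D.t n) (sdn D.X.P n) b = D.sn n b := rfl
    rw [h6]
    linarith
  · intro y hy w hw hyw hc
    rcases hZ.mem_oc hc with h | h
    · refine (b1 w hw).2 ?_
      refine mem_filter.2 ⟨?_, Or.inr (Or.inr ⟨y, hy, hyw.symm, h⟩)⟩
      exact H.sel.Qlt _ (Or.inr hw.2) _ (b1 w hw).1
    · exact (hZ.avA h).2.2.2.2 y hy hyw.symm rfl
  · intro n hn hnd b hb
    exact non_K H hR hq hI hS hL hθ hd he b3 hn hnd hb _ _ _ _ (fun w hw => hZ.mem_oc hw)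

end

/-- negative powers are small -/
theorem small_pow {c ε : ℝ} (hc : 0 < c) (hε : 0 < ε) :
    ∃ d0 : ℕ, ∀ d : ℕ, d0 ≤ d → (d : ℝ) ^ (-c) ≤ ε := by
  have h1 : Filter.Tendsto (fun d : ℕ => (d : ℝ) ^ (-c)) Filter.atTop (nhds 0) :=
    (tendsto_rpow_neg_atTop hc).comp tendsto_natCast_atTop_atTop
  obtain ⟨d0, h2⟩ := Filter.eventually_atTop.1 (h1.eventually_le_const hε)
  exact ⟨d0, h2⟩

theorem stmt_ASM (hS : Stmt_SAS.{u}) (hB : Stmt_BAS.{u}) : Stmt_OCB4.{u} := by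
  intro πk C g z τ e η' M x hπ1 hπ2 hC hg0 hg1 hz0 hz1 hτ hτe hez hη hx
  have he : 0 < e := by linarith
  obtain ⟨η1, hη1⟩ : ∃ η1 : ℝ, η1 = min η' (z / 200) := ⟨_, rfl⟩
  have hη0 : 0 < η1 := by
    rw [hη1]
    exact lt_min hη (by linarith)
  obtain ⟨X1, hX1⟩ : ∃ X1 : ℕ, X1 = 2 * KX4 C πk + ⌈1000 * (C + 5)⌉₊ + ⌈2 * C / η1⌉₊ := ⟨_, rfl⟩
  obtain ⟨k, hkd⟩ : ∃ k : Con, k = ⟨πk, C, g, z, τ, e, η1, M, X1⟩ := ⟨_, rfl⟩
  have hk : k.Ok := by
    rw [hkd]
    refine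
      { π1 := hπ1
        π2 := hπ2
        C1 := hC
        g0 := hg0
        g1 := hg1
        z0 := hz0
        z1 := hz1
        τ0 := hτ
        τe := hτe
        ez := hez
        η0 := hη0
        η1 := ?_
        XK := ?_
        XC := ?_
        Xη := ?_ }
    · show η1 ≤ z / 200
      rw [hη1]
      exact min_le_right _ _
    · show 2 * KX4 C πk ≤ X1
      omega
    · show 1000 * (C + 5) ≤ (X1 : ℝ)
      have h1 := Nat.le_ceil (1000 * (C + 5))
      have h2 : ((⌈1000 * (C + 5)⌉₊ : ℕ) : ℝ) ≤ X1 := by exact_mod_cast (by omega)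
      linarith
    · show 2 * C ≤ η1 * (X1 : ℝ)
      have h1 := Nat.le_ceil (2 * C / η1)
      have h2 : ((⌈2 * C / η1⌉₊ : ℕ) : ℝ) ≤ X1 := by exact_mod_cast (by omega)
      have h3 := h1.trans h2
      rw [div_le_iff₀ hη0] at h3
      linarith
  obtain ⟨T1, hT1, h1⟩ := hS k hk
  obtain ⟨T2, hT2, h2⟩ := hB k hk
  obtain ⟨B, hBd⟩ : ∃ B : ℕ, B = 4 * (M * (X1 + 5 * KX4 C πk + 5)) := ⟨_, rfl⟩
  have hB0 : (0 : ℝ) ≤ B := Nat.cast_nonneg _
  obtain ⟨θB, hθB⟩ : ∃ θB : ℝ, θB = (e / 16 / (B + 1)) ^ 2 := ⟨_, rfl⟩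
  have hθ0 : 0 < θB := by
    rw [hθB]
    positivity
  obtain ⟨T3, hT3⟩ : ∃ T3 : Thr, T3 =
      { π0 := fun _ => 1
        κ0 := fun _ _ => 1
        ε0 := fun _ _ _ => 1
        ζ0 := fun _ _ _ _ => 1
        θ0 := fun _ _ _ _ _ => θB } := ⟨_, rfl⟩
  have hT3P : T3.Pos := by
    rw [hT3]
    exact
      { π0 := fun _ _ => one_pos
        κ0 := fun _ _ _ _ => one_pos
        ε0 := fun _ _ _ _ _ _ => one_pos
        ζ0 := fun _ _ _ _ _ _ _ _ => one_pos
        θ0 := fun _ _ _ _ _ _ _ _ _ _ => hθ0 }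
  refine ⟨T1.inf (T2.inf T3), Thr.inf_pos hT1 (Thr.inf_pos hT2 hT3P), ?_⟩
  intro J S c' hA hc' hc2
  obtain ⟨d1, h1'⟩ := h1 J S c' (fun s => (hA s).inl) hc' hc2
  obtain ⟨d2, h2'⟩ := h2 J S c' (fun s => (hA s).inr.inl) hc' hc2
  have hxs : ∀ s, 0 < x (S s).ρ (S s).π (S s).κ := fun s =>
    hx _ _ _ (hA s).ρ.1 (hA s).π.1 (hA s).κ.1
  obtain ⟨d3, h3⟩ := small_pow (c := c' / 8) (ε := e / 4) (by linarith) (by linarith)
  choose d4 h4 using fun s : Fin J => small_pow (c := c') (ε := x (S s).ρ (S s).π (S s).κ / 2)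
    hc' (by linarith [hxs s])
  refine ⟨d1 + d2 + d3 + 1 + ∑ s, (d4 s + ⌈1 / x (S s).ρ (S s).π (S s).κ⌉₊), ?_⟩
  intro V _ N G d X A t c Ex Qn P2n cN x0 θk θ' η hd hθk hθ' hη2 hHv hP hPal hRg hSel hOw
  have hds : ∀ s, d4 s + ⌈1 / x (S s).ρ (S s).π (S s).κ⌉₊ ≤ d := by
    intro s
    have := single_le_sum (f := fun s => d4 s + ⌈1 / x (S s).ρ (S s).π (S s).κ⌉₊)
      (fun _ _ => Nat.zero_le _) (mem_univ s)
    exact le_trans this (by omega)
  obtain ⟨D, hD⟩ : ∃ D : OD V N J, D =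
      { G := G
        d := d
        X := X
        S := S
        A := A
        t := t
        c := c
        cN := cN
        Ex := Ex
        Qn := Qn
        P2n := P2n
        x0 := x0
        θk := θk
        θ' := θ'
        η := η
        K := KX4 C πk
        X1 := X1
        X0 := ⌊(d : ℝ) ^ (c' / 4)⌋₊
        m0 := ⌊(d : ℝ) ^ (1 - c' / 2)⌋₊ } := ⟨_, rfl⟩
  have H : Hyp k c' D := by
    rw [hD, hkd]
    exact
      { θk1 := hθk
        θ1 := hθ'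
        η1 := hη2
        hv := hHv
        pc := hP
        pal := hPal
        rg := hRg
        sel := hSel
        own := hOw
        K := rfl
        X1 := rfl
        X0 := rfl
        m0 := rfl }
  have hDd : D.d = d := by rw [hD]
  have hDS : D.S = S := by rw [hD]
  obtain ⟨U, cR, q, rg, τ1, σ, Sl, Lg, hR, hq, hI0, hI5, hSl, hLg⟩ :=
    h1' D (by rw [hDd]; omega) hDS H
  have hZ := Zs_of hq hSl hLg
  have hζ : ∀ s, 0 < (D.S s).ζ := by
    intro s
    rw [hDS]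
    exact (hA s).ζ.1
  obtain ⟨c0, b1, b2, b3⟩ := h2' D (by rw [hDd]; omega) hDS H
    (BnZ D U cR (fun n β i b => Sl n β i b ∪ Lg n β i b))
    (fun v hv => Bn_card hZ hq hI0 (fun y hy => (hR.base.UK y hy).1) (hζ _).le hv
      (H.pc.thd v (Or.inr hv)))
  have hdpos : 0 < d := by omega
  have hdR : (0 : ℝ) < d := by exact_mod_cast hdpos
  have key := ocb_of H hR hq hI0 hI5 hSl hLg (by
      intro s
      have h5 : D.X1 = X1 := by rw [hD]
      have h6 : D.K = KX4 C πk := by rw [hD]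
      have h7 : k.M = M := by rw [hkd]
      have h8 : k.e = e := by rw [hkd]
      rw [h5, h6, h7, h8, hDS, ← hBd]
      have h9 := (hA s).inr.inr.θ.2
      rw [hT3] at h9
      have h10 : Real.sqrt (S s).θ ≤ e / 16 / (B + 1) := by
        rw [← Real.sqrt_sq (by positivity : (0 : ℝ) ≤ e / 16 / (B + 1)), ← hθB]
        exact Real.sqrt_le_sqrt h9
      calc (B : ℝ) * Real.sqrt (S s).θ ≤ (B : ℝ) * (e / 16 / (B + 1)) :=
            mul_le_mul_of_nonneg_left h10 hB0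
        _ = e / 16 * (B / (B + 1)) := by ring
        _ ≤ e / 16 * 1 := by
            refine mul_le_mul_of_nonneg_left ?_ (by positivity)
            rw [div_le_one (by linarith)]
            linarith
        _ = _ := mul_one _) (by
      have h8 : k.e = e := by rw [hkd]
      rw [h8, hDd, show (1 : ℝ) - c' / 8 = 1 + -(c' / 8) by ring, Real.rpow_add hdR,
        Real.rpow_one, mul_comm]
      exact mul_le_mul_of_nonneg_right (h3 d (by omega)) hdR.le) (by rw [hkd]; exact he)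
    (η' := η') (by
      rw [hkd]
      show η1 ≤ η'
      rw [hη1]
      exact min_le_left _ _)
    (x := fun s => x (S s).ρ (S s).π (S s).κ) (by
      intro s
      rw [hDd]
      have := h4 s d (by have := hds s; omega)
      linarith) (by
      intro s
      rw [hDd]
      have h5 := Nat.le_ceil (1 / x (S s).ρ (S s).π (S s).κ)
      have h6 : ((⌈1 / x (S s).ρ (S s).π (S s).κ⌉₊ : ℕ) : ℝ) ≤ d := by
        have := hds s
        exact_mod_cast (by omega : ⌈1 / x (S s).ρ (S s).π (S s).κ⌉₊ ≤ d)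
      have h7 := h5.trans h6
      rw [div_le_iff₀ (hxs s)] at h7
      linarith) b1 b2 b3
  rw [hD, hkd] at key
  rw [hD] at *
  exact ⟨c0, _, _, _, U, cR, key⟩

end Pool.Agent.Work.MP_db9399_oc.helper61
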