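import Pool.Agent.Work.MP_db9399_oc.Interface
import Pool.Agent.Work.MP_db9399_xf_helper62.BX3

/-!
# MP_db9399, OCB4, block ASM, part 1: all slots (helper61)
-/

set_option autoImplicit false
set_option linter.unusedSectionVars false

namespace Pool.Agent.Work.MP_db9399_oc.helper61

open Finset Classical
open Pool.Agent.Work.MP_db9399_all (nb)
open Pool.Agent.Work.MP_db9399_lt (us)
open Pool.Agent.Work.MP_db9399_da hiding qV
open Pool.Agent.Work.MP_db9399_xf
open Pool.Agent.Work.MP_db9399_x4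
open Pool.Agent.Work.MP_db9399_oc

universe u

section

variable {V : Type u} [Fintype V] {N J : ℕ}

theorem mem_nbA {G : SimpleGraph V} {v w : V} : w ∈ nb G v ↔ G.Adj v w := by simp [nb]

theorem mem_qVA {X : XD V N J} {n : Fin N} {β i : Bool} {v : V} :
    v ∈ qV X n β i ↔ v ∉ X.P.V0 ∧ X.P.pc v = n ∧ X.P.sd v = β ∧ X.P.pt v = i := by
  simp [qV, sV, and_assoc]

theorem mem_pVA {X : XD V N J} {n : Fin N} {v : V} :
    v ∈ pV X.P n ↔ v ∉ X.P.V0 ∧ X.P.pc v = n := by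
  simp [pV]

/-- all slots together -/
structure Zs (D : OD V N J) (U : Finset V) (cR : V → ℕ) (q : Fin N → Bool → Bool → ℕ → ℕ)
    (rg : V → ℕ) (Z : Fin N → Bool → Bool → ℕ → Finset V) : Prop where
  av : ∀ n β i b, Z n β i b ⊆ D.Av U cR n β i b
  cd : ∀ n β i b, D.X.P.ty n = Ty.B → b < D.d + 2 → (Z n β i b).card = q n β i b
  em : ∀ n β i b, D.d + 2 ≤ b → Z n β i b = ∅
  dj : ∀ n β i b b', b ≠ b' → Disjoint (Z n β i b) (Z n β i b')
  cf : ∀ n β i n' β' i' b, ∀ v ∈ Z n β i b, ∀ w ∈ Z n' β' i' b, ¬ Te D.G D.X v w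
  r0 : ∀ n β i b, ∀ v ∈ Z n β i b, rg v ≠ 0
  r2 : ∀ n β i b, b ∈ D.Qn n (!i) → ∀ v ∈ Z n β i b, rg v = 2

variable {D : OD V N J} {U : Finset V} {cR : V → ℕ} {q : Fin N → Bool → Bool → ℕ → ℕ}
  {rg : V → ℕ} {Z : Fin N → Bool → Bool → ℕ → Finset V}

theorem Te_symm {G : SimpleGraph V} {X : XD V N J} {v w : V} (h : Te G X v w) : Te G X w v :=
  ⟨h.1.symm, h.2.2, h.2.1⟩

theorem kc_zero {n : Fin N} {β i : Bool} {b : ℕ} (hq : D.Dem q) (h : D.kc n β i b = 0) :
    q n β i b = 0 := by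
  by_cases h1 : D.d + 2 ≤ b
  · exact hq.pz n β i b (Or.inr (Or.inl h1))
  · unfold OD.kc at h
    split_ifs at h with h2 h3 h4 h5 h6
    have h7 : b ∈ D.Qn n i := by
      by_contra h8
      refine h4 ?_
      unfold OD.P P1
      rw [mem_sdiff, mem_range]
      refine ⟨by omega, fun h9 => ?_⟩
      rcases mem_union.1 h9 with h9 | h9
      · have h10 : b ∈ D.Qn n i ∨ b ∈ D.Qn n (!i) := by
          rcases mem_union.1 h9 with h9 | h9
          · cases i
            · exact Or.inl h9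
            · exact Or.inr h9
          · cases i
            · exact Or.inr h9
            · exact Or.inl h9
        rcases h10 with h10 | h10
        · exact h8 h10
        · exact h2 h10
      · exact h3 h9
    exact hq.pz n β i b (Or.inr (Or.inr h7))

theorem Zs_of {e : ℝ} {τ : V → ℕ} {σ : Fin N → Bool → Bool → ℕ → ℕ → ℕ}
    {Sl Lg : Fin N → Bool → Bool → ℕ → Finset V} (hq : D.Dem q)
    (hS : D.Slt U cR q rg τ σ Sl) (hL : D.Lgs e U cR q rg Sl Lg) :
    Zs D U cR q rg (fun n β i b => Sl n β i b ∪ Lg n β i b) := by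
  have hB : ∀ n β i b, ∀ v ∈ Sl n β i b, D.X.P.ty n = Ty.B ∧ b < D.d + 2 ∧
      D.kc n β i b ≠ 4 := by
    intro n β i b v hv
    have h1 := hS.c4 n β i b
    refine ⟨?_, ?_, ?_⟩
    · by_contra h
      rw [h1 (Or.inl h)] at hv
      exact notMem_empty _ hv
    · by_contra h
      rw [h1 (Or.inr (Or.inl (by omega)))] at hv
      exact notMem_empty _ hv
    · intro h
      rw [h1 (Or.inr (Or.inr h))] at hv
      exact notMem_empty _ hv
  have hB' : ∀ n β i b, ∀ v ∈ Lg n β i b, D.X.P.ty n = Ty.B ∧ b < D.d + 2 ∧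
      D.kc n β i b = 4 := by
    intro n β i b v hv
    have h1 := hL.c4 n β i b
    refine ⟨?_, ?_, ?_⟩
    · by_contra h
      rw [h1 (Or.inl h)] at hv
      exact notMem_empty _ hv
    · by_contra h
      rw [h1 (Or.inr (Or.inl (by omega)))] at hv
      exact notMem_empty _ hv
    · by_contra h
      rw [h1 (Or.inr (Or.inr h))] at hv
      exact notMem_empty _ hv
  refine
    { av := fun n β i b => union_subset (hS.av n β i b) (hL.av n β i b)
      cd := ?_
      em := ?_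
      dj := ?_
      cf := ?_
      r0 := ?_
      r2 := ?_ }
  · intro n β i b hn hb
    show (Sl n β i b ∪ Lg n β i b).card = _
    by_cases h4 : D.kc n β i b = 4
    · rw [hS.c4 n β i b (Or.inr (Or.inr h4)), empty_union]
      exact hL.cd n β i b hn hb h4
    · rw [hL.c4 n β i b (Or.inr (Or.inr h4)), union_empty]
      exact hS.cd n β i b hn hb h4
  · intro n β i b hb
    show Sl n β i b ∪ Lg n β i b = _
    rw [hS.c4 n β i b (Or.inr (Or.inl hb)), hL.c4 n β i b (Or.inr (Or.inl hb)), empty_union]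
  · intro n β i b b' hbb
    rw [disjoint_union_left, disjoint_union_right, disjoint_union_right]
    exact ⟨⟨hS.dj n β i b b' hbb, (hL.ds n β i b' b).symm⟩, hL.ds n β i b b',
      hL.dj n β i b b' hbb⟩
  · intro n β i n' β' i' b v hv w hw
    rcases mem_union.1 hv with hv | hv
    · rcases mem_union.1 hw with hw | hw
      · exact hS.cf n β i n' β' i' b v hv w hw
      · intro h
        exact hL.cs n' β' i' n β i b w hw v hv (Te_symm h)
    · rcases mem_union.1 hw with hw | hw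
      · exact hL.cs n β i n' β' i' b v hv w hw
      · exact hL.cf n β i n' β' i' b v hv w hw
  · intro n β i b v hv h0
    rcases mem_union.1 hv with hv | hv
    · have h1 := hS.rg n β i b v hv
      rw [h0] at h1
      obtain ⟨h2, h3, h4⟩ := hB n β i b v hv
      have h5 := hS.cd n β i b h2 h3 h4
      rw [kc_zero hq h1.symm] at h5
      rw [card_eq_zero.1 h5] at hv
      exact notMem_empty _ hv
    · have h1 := hL.rg n β i b v hv
      omega
  · intro n β i b hb v hv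
    have hk : D.kc n β i b = 2 := if_pos hb
    rcases mem_union.1 hv with hv | hv
    · rw [hS.rg n β i b v hv, hk]
    · have := (hB' n β i b v hv).2.2
      omega

/-- the colour `b` has a slot at the vertex `v` -/
def At (D : OD V N J) (Z : Fin N → Bool → Bool → ℕ → Finset V) (v : V) (b : ℕ) : Prop :=
  v ∈ Z (D.X.P.pc v) (D.X.P.sd v) (D.X.P.pt v) b

/-- the colour of the slot at `v` -/
noncomputable def c1Z (D : OD V N J) (Z : Fin N → Bool → Bool → ℕ → Finset V) (v : V) : ℕ :=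
  if h : ∃ b, At D Z v b then h.choose else 0

/-- the vertices with slots of colours in `P1` -/
noncomputable def T1Z (D : OD V N J) (Z : Fin N → Bool → Bool → ℕ → Finset V) : Finset V :=
  univ.filter fun v => ∃ b ∈ D.P (D.X.P.pc v), At D Z v b

/-- the vertices with other slots -/
noncomputable def T2Z (D : OD V N J) (Z : Fin N → Bool → Bool → ℕ → Finset V) : Finset V :=
  univ.filter fun v => ∃ b, b ∉ D.P (D.X.P.pc v) ∧ At D Z v b

namespace Zs

theorem mem (hZ : Zs D U cR q rg Z) {n : Fin N} {β i : Bool} {b : ℕ} {v : V}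
    (h : v ∈ Z n β i b) : D.X.P.pc v = n ∧ D.X.P.sd v = β ∧ D.X.P.pt v = i ∧ At D Z v b ∧
      v ∉ D.X.P.V0 := by
  have h1 := mem_qVA.1 (mem_filter.1 (hZ.av n β i b h)).1
  obtain ⟨h2, h3, h4, h5⟩ := h1
  refine ⟨h3, h4, h5, ?_, h2⟩
  unfold At
  rw [h3, h4, h5]
  exact h

theorem avA (hZ : Zs D U cR q rg Z) {v : V} {b : ℕ} (h : At D Z v b) :
    InT D.X Ty.B v ∧ b ∉ D.F v ∧ D.typ v b ∧ (∀ w, Owd D.X w → D.G.Adj v w → D.cN w ≠ b) ∧
      ∀ y ∈ U, D.G.Adj v y → cR y ≠ b := by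
  have h1 := mem_filter.1 (hZ.av _ _ _ _ h)
  exact ⟨h1.2.1.1, h1.2.1.2.1, h1.2.2.1, h1.2.2.2.1, h1.2.2.2.2⟩

theorem lt (hZ : Zs D U cR q rg Z) {v : V} {b : ℕ} (h : At D Z v b) : b < D.d + 2 := by
  by_contra h1
  unfold At at h
  rw [hZ.em _ _ _ _ (by omega)] at h
  exact notMem_empty _ h

theorem uniq (hZ : Zs D U cR q rg Z) {v : V} {b b' : ℕ} (h : At D Z v b) (h' : At D Z v b') :
    b = b' := by
  by_contra h1
  exact disjoint_left.1 (hZ.dj _ _ _ _ _ h1) h h'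

theorem c1_eq (hZ : Zs D U cR q rg Z) {v : V} {b : ℕ} (h : At D Z v b) : c1Z D Z v = b := by
  have h1 : ∃ b, At D Z v b := ⟨b, h⟩
  unfold c1Z
  rw [dif_pos h1]
  exact hZ.uniq h1.choose_spec h

theorem qpos (hZ : Zs D U cR q rg Z) {v : V} {b : ℕ} (h : At D Z v b) :
    0 < q (D.X.P.pc v) (D.X.P.sd v) (D.X.P.pt v) b := by
  rw [← hZ.cd _ _ _ _ (hZ.avA h).1.2 (hZ.lt h)]
  exact card_pos.2 ⟨v, h⟩

theorem mem_T1 (hZ : Zs D U cR q rg Z) {v : V} (h : v ∈ T1Z D Z) :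
    c1Z D Z v ∈ D.P (D.X.P.pc v) ∧ At D Z v (c1Z D Z v) := by
  obtain ⟨_, b, hb, hv⟩ := mem_filter.1 h
  rw [hZ.c1_eq hv]
  exact ⟨hb, hv⟩

theorem mem_T2 (hZ : Zs D U cR q rg Z) {v : V} (h : v ∈ T2Z D Z) :
    c1Z D Z v ∉ D.P (D.X.P.pc v) ∧ At D Z v (c1Z D Z v) := by
  obtain ⟨_, b, hb, hv⟩ := mem_filter.1 h
  rw [hZ.c1_eq hv]
  exact ⟨hb, hv⟩

theorem mem_T12 (hZ : Zs D U cR q rg Z) {v : V} (h : v ∈ T1Z D Z ∪ T2Z D Z) :
    At D Z v (c1Z D Z v) := by
  rcases mem_union.1 h with h | h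
  · exact (hZ.mem_T1 h).2
  · exact (hZ.mem_T2 h).2

/-- the possible own colours -/
theorem mem_oc (hZ : Zs D U cR q rg Z) {c0 : V → ℕ} {v : V} {b : ℕ}
    (h : b ∈ oc c0 (c1Z D Z) (T1Z D Z) (T2Z D Z) v) : b = c0 v ∨ At D Z v b := by
  unfold oc at h
  split_ifs at h with h1 h2
  · rw [mem_singleton.1 h]
    exact Or.inr (hZ.mem_T1 h1).2
  · rcases mem_insert.1 h with h | h
    · exact Or.inl h
    · rw [mem_singleton.1 h]
      exact Or.inr (hZ.mem_T2 h2).2
  · exact Or.inl (mem_singleton.1 h)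

end Zs

/-- no colour has slots at both sides -/
theorem q_opp (hq : D.Dem q) {n : Fin N} {i i' : Bool} {b : ℕ} (h : 0 < q n false i b)
    (h' : 0 < q n true i' b) : False := by
  have hn : D.X.P.ty n = Ty.B := by
    by_contra h1
    rw [hq.pz n false i b (Or.inl h1)] at h
    exact lt_irrefl _ h
  have hb : b < D.d + 2 := by
    by_contra h1
    rw [hq.pz n false i b (Or.inr (Or.inl (by omega)))] at h
    exact lt_irrefl _ h
  have hQ : ∀ j, b ∉ D.Qn n j := by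
    intro j hj
    by_cases h1 : j = i'
    · rw [h1] at hj
      rw [hq.pz n true i' b (Or.inr (Or.inr hj))] at h'
      exact lt_irrefl _ h'
    · have h2 : j = !i' := by
        cases j <;> cases i' <;> simp_all
      rw [h2] at hj
      rw [(hq.pq n hn i' b hj).2] at h'
      exact lt_irrefl _ h'
  by_cases hP : b ∈ D.P2n n
  · rw [(hq.p2 n hn i' b hP).2] at h'
    exact lt_irrefl _ h'
  · have hP1 : b ∈ D.P n := by
      unfold OD.P P1
      rw [mem_sdiff, mem_range]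
      refine ⟨hb, fun h9 => ?_⟩
      rcases mem_union.1 h9 with h9 | h9
      · rcases mem_union.1 h9 with h9 | h9
        · exact hQ false h9
        · exact hQ true h9
      · exact hP h9
    have h1 := hq.hf n hn false i b hP1
    have h2 := hq.hf n hn true i' b hP1
    have h3 : D.nd n false b = 0 ∨ D.nd n true b = 0 := by
      unfold OD.nd need
      simp only [Bool.not_false, Bool.not_true]
      omega
    rcases h3 with h3 | h3 <;> omega

theorem q_opp' (hq : D.Dem q) {n : Fin N} {β β' i i' : Bool} {b : ℕ} (hβ : β ≠ β')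
    (h : 0 < q n β i b) (h' : 0 < q n β' i' b) : False := by
  cases β <;> cases β'
  · exact hβ rfl
  · exact q_opp hq h h'
  · exact q_opp hq h' h
  · exact hβ rfl

/-- forbidden colours for `c0` -/
noncomputable def BnZ (D : OD V N J) (U : Finset V) (cR : V → ℕ)
    (Z : Fin N → Bool → Bool → ℕ → Finset V) (v : V) : Finset ℕ :=
  (range (D.d + 2)).filter fun b => (∃ w, D.G.Adj v w ∧ At D Z w b) ∨
    (∃ w, Owd D.X w ∧ D.G.Adj v w ∧ D.cN w = b) ∨ ∃ y ∈ U, D.G.Adj v y ∧ cR y = b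

theorem not_bulk_of {G : SimpleGraph V} {X : XD V N J} {v w : V} (hv : InT X Ty.B v)
    (hw : ¬ InT X Ty.B w) (h : G.Adj v w) : (thin G X.P).Adj v w := by
  refine ⟨h, fun h' => hw ⟨h'.2.2.1, ?_⟩⟩
  rw [← h'.2.2.2.1]
  exact hv.2

theorem Owd_notB {X : XD V N J} {w : V} (h : Owd X w) : ¬ InT X Ty.B w := by
  intro h1
  rcases h with h | h
  · exact h1.1 h
  · have h2 := h.2
    rw [h1.2] at h2
    cases h2

theorem Lk_notB {X : XD V N J} {w : V} (h : Lk X w) : ¬ InT X Ty.B w := by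
  intro h1
  have h2 := h.1.2
  rw [h1.2] at h2
  cases h2

theorem Lk_notO {X : XD V N J} {w : V} (h : Lk X w) : ¬ Owd X w := by
  intro h1
  rcases h1 with h1 | h1
  · exact h.1.1 h1
  · have h2 := h.1.2
    rw [h1.2] at h2
    cases h2

theorem Bn_card (hZ : Zs D U cR q rg Z) (hq : D.Dem q) (hI : D.I0 rg)
    (hU : ∀ y ∈ U, Lk D.X y) {v : V} (hζ : 0 ≤ (D.sl (D.X.P.pc v)).ζ)
    (hv : InT D.X Ty.B v)
    (hth : ((nb (thin D.G D.X.P) v).card : ℝ) ≤ (D.sl (D.X.P.pc v)).ζ * D.d) :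
    ((BnZ D U cR Z v ∩ D.Qn (D.X.P.pc v) (D.X.P.pt v)).card : ℝ) ≤
      (D.Qn (D.X.P.pc v) (D.X.P.pt v)).card / 4 + 3 * (D.sl (D.X.P.pc v)).ζ * D.d := by
  let v' : Ts D.X.P (D.X.P.pc v) := ⟨v, hv.1, rfl⟩
  let g1 : V → ℕ := fun w => if Owd D.X w then D.cN w else if w ∈ U then cR w else c1Z D Z w
  let S2 : Finset (Ts D.X.P (D.X.P.pc v)) :=
    (nb (bk D.G D.X.P (D.X.P.pc v)) v' ∩
      prt (ptn D.X.P (D.X.P.pc v)) (!(ptn D.X.P (D.X.P.pc v) v'))).filter (fun w => rg w.1 = 2)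
  have hS2 : (S2.card : ℝ) ≤ (D.Qn (D.X.P.pc v) (D.X.P.pt v)).card / 4 := by
    have h1 := hI.r2 (D.X.P.pc v) hv.2 v'
    exact h1
  have hsub : BnZ D U cR Z v ∩ D.Qn (D.X.P.pc v) (D.X.P.pt v) ⊆
      (nb (thin D.G D.X.P) v).image g1 ∪ S2.image (fun w => c1Z D Z w.1) := by
    intro b hb
    obtain ⟨hb1, hbQ⟩ := mem_inter.1 hb
    obtain ⟨_, hb1⟩ := mem_filter.1 hb1
    rcases hb1 with ⟨w, hvw, hw⟩ | ⟨w, hw, hvw, hwb⟩ | ⟨y, hy, hvy, hyb⟩
    · have hwB := (hZ.avA hw).1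
      by_cases hth' : (thin D.G D.X.P).Adj v w
      · refine mem_union_left _ (mem_image.2 ⟨w, mem_nbA.2 hth', ?_⟩)
        show (if Owd D.X w then D.cN w else if w ∈ U then cR w else c1Z D Z w) = b
        rw [if_neg fun h => Owd_notB h hwB, if_neg fun h => Lk_notB (hU w h) hwB]
        exact hZ.c1_eq hw
      · have hbk : (bulk D.G D.X.P).Adj v w := by
          by_contra h
          exact hth' ⟨hvw, h⟩
        have hpc : D.X.P.pc w = D.X.P.pc v := hbk.2.2.2.1.symm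
        have hqw := hZ.qpos hw
        have hpt : D.X.P.pt w ≠ D.X.P.pt v := by
          intro h
          rw [hpc, h, hq.pz _ _ _ _ (Or.inr (Or.inr hbQ))] at hqw
          exact lt_irrefl _ hqw
        have hpt' : D.X.P.pt w = !(D.X.P.pt v) := by
          revert hpt
          cases D.X.P.pt w <;> cases D.X.P.pt v <;> simp
        refine mem_union_right _ (mem_image.2 ⟨⟨w, hbk.2.2.1, hpc⟩, ?_, hZ.c1_eq hw⟩)
        refine mem_filter.2 ⟨mem_inter.2 ⟨mem_nbA.2 hbk, ?_⟩, ?_⟩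
        · exact mem_filter.2 ⟨mem_univ _, hpt'⟩
        · refine hZ.r2 _ _ _ b ?_ w hw
          rw [hpc, hpt', Bool.not_not]
          exact hbQ
    · refine mem_union_left _ (mem_image.2 ⟨w, mem_nbA.2 (not_bulk_of hv (Owd_notB hw) hvw), ?_⟩)
      show (if Owd D.X w then D.cN w else if w ∈ U then cR w else c1Z D Z w) = b
      rw [if_pos hw, hwb]
    · refine mem_union_left _ (mem_image.2
        ⟨y, mem_nbA.2 (not_bulk_of hv (Lk_notB (hU y hy)) hvy), ?_⟩)
      show (if Owd D.X y then D.cN y else if y ∈ U then cR y else c1Z D Z y) = b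
      rw [if_neg (Lk_notO (hU y hy)), if_pos hy, hyb]
  have h1 : ((BnZ D U cR Z v ∩ D.Qn (D.X.P.pc v) (D.X.P.pt v)).card : ℝ) ≤
      ((nb (thin D.G D.X.P) v).card : ℝ) + (S2.card : ℝ) := by
    have h2 := (card_le_card hsub).trans (card_union_le _ _)
    have h3 := h2.trans (add_le_add card_image_le card_image_le)
    exact_mod_cast h3
  have h2 : 0 ≤ (D.sl (D.X.P.pc v)).ζ * D.d := mul_nonneg hζ (Nat.cast_nonneg _)
  linarith

/-! ### Counting -/

/-- slots as a set of vertices of the piece -/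
noncomputable def ZT (D : OD V N J) (Z : Fin N → Bool → Bool → ℕ → Finset V) (n : Fin N)
    (β i : Bool) (b : ℕ) : Finset (Ts D.X.P n) :=
  univ.filter fun v => v.1 ∈ Z n β i b

theorem card_ZT (hZ : Zs D U cR q rg Z) (n : Fin N) (β i : Bool) (b : ℕ) :
    (ZT D Z n β i b).card = (Z n β i b).card := by
  refine card_bij (fun v _ => v.1) (fun v hv => (mem_filter.1 hv).2)
    (fun v _ w _ h => Subtype.ext h) (fun v hv => ?_)
  obtain ⟨h1, _, _, _, h2⟩ := hZ.mem hv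
  exact ⟨⟨v, h2, h1⟩, mem_filter.2 ⟨mem_univ _, hv⟩, rfl⟩

theorem mem_ZT (hZ : Zs D U cR q rg Z) {n : Fin N} {β i : Bool} {b : ℕ} {v : Ts D.X.P n} :
    v ∈ ZT D Z n β i b ↔ sdn D.X.P n v = β ∧ ptn D.X.P n v = i ∧ At D Z v.1 b := by
  unfold ZT
  rw [mem_filter]
  constructor
  · rintro ⟨_, h⟩
    obtain ⟨h1, h2, h3, h4, h5⟩ := hZ.mem h
    exact ⟨h2, h3, h4⟩
  · rintro ⟨h1, h2, h3⟩
    refine ⟨mem_univ _, ?_⟩
    unfold At at h3
    rw [v.2.2] at h3
    rw [← h1, ← h2]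
    exact h3

theorem card_ZT' (hZ : Zs D U cR q rg Z) {n : Fin N} (hn : D.X.P.ty n = Ty.B) (β i : Bool)
    {b : ℕ} (hb : b < D.d + 2) : (ZT D Z n β i b).card = q n β i b := by
  rw [card_ZT hZ, hZ.cd n β i b hn hb]

theorem P_lt {n : Fin N} {b : ℕ} (h : b ∈ D.P n) : b < D.d + 2 :=
  mem_range.1 (mem_sdiff.1 h).1

theorem mem_TnT1 (hZ : Zs D U cR q rg Z) {n : Fin N} {b : ℕ} (hb : b ∈ D.P n)
    {v : Ts D.X.P n} : (v ∈ Tn D.X n (T1Z D Z) ∧ c1Z D Z v.1 = b) ↔ At D Z v.1 b := by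
  constructor
  · rintro ⟨h1, h2⟩
    rw [← h2]
    exact (hZ.mem_T1 (mem_filter.1 h1).2).2
  · intro h
    refine ⟨mem_filter.2 ⟨mem_univ _, mem_filter.2 ⟨mem_univ _, b, ?_, h⟩⟩, hZ.c1_eq h⟩
    rw [v.2.2]
    exact hb

end

end Pool.Agent.Work.MP_db9399_oc.helper61
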