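import Pool.Agent.Work.MP_db9399_oc_helper61.Asm1

/-!
# MP_db9399, OCB4, block ASM, part 2: the fields of `OcbX4` (helper61)
-/

set_option autoImplicit false
set_option linter.unusedSectionVars false

namespace Pool.Agent.Work.MP_db9399_oc.helper61

open Finset Classical
open Pool.Agent.Work.MP_db9399_all (nb)
open Pool.Agent.Work.MP_db9399_lt (us)
open Pool.Agent.Work.MP_db9399_da hiding qV
open Pool.Agent.Work.MP_db9399_xf
open Pool.Agent.Work.MP_db9399_x4
open Pool.Agent.Work.MP_db9399_oc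

universe u

section

variable {V : Type u} [Fintype V] {N J : ℕ} {D : OD V N J} {U : Finset V} {cR : V → ℕ}
  {q : Fin N → Bool → Bool → ℕ → ℕ} {rg : V → ℕ} {Z : Fin N → Bool → Bool → ℕ → Finset V}

/-- number of the vertices of the side `β` with `b` -/
noncomputable def cn {W : Type u} [Fintype W] (F : W → Finset ℕ) (sd : W → Bool) (β : Bool)
    (b : ℕ) : ℕ := (univ.filter (fun v => sd v = β ∧ b ∈ F v)).card

theorem need_cn {W : Type u} [Fintype W] (F : W → Finset ℕ) (sd : W → Bool) (β : Bool) (b : ℕ) :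
    need F sd β b = cn F sd (!β) b - cn F sd β b := by
  unfold need cn sid us
  rw [filter_and, filter_and]

theorem sg_cn {W : Type u} [Fintype W] (F : W → Finset ℕ) (sd : W → Bool) (b : ℕ) :
    sg F sd b = (cn F sd false b : ℤ) - cn F sd true b := by
  unfold sg cn sid us
  rw [filter_and, filter_and]

theorem sid_us (hZ : Zs D U cR q rg Z) (hq : D.Dem q) {n : Fin N} (hn : D.X.P.ty n = Ty.B)
    (β : Bool) {b : ℕ} (hb : b ∈ D.P n) :
    cn (Fo (Tn D.X n (T1Z D Z)) (fun v => c1Z D Z v.1)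
      (Fp (xt D.G D.X) D.X D.t n)) (sdn D.X.P n) β b =
    cn (Fp (xt D.G D.X) D.X D.t n) (sdn D.X.P n) β b + D.nd n β b := by
  have h1 : univ.filter (fun v => sdn D.X.P n v = β ∧ b ∈ Fo (Tn D.X n (T1Z D Z))
      (fun v => c1Z D Z v.1) (Fp (xt D.G D.X) D.X D.t n) v) =
      (univ.filter (fun v => sdn D.X.P n v = β ∧ b ∈ Fp (xt D.G D.X) D.X D.t n v)) ∪
        (ZT D Z n β false b ∪ ZT D Z n β true b) := by
    ext v
    rw [mem_union, mem_union, mem_ZT hZ, mem_ZT hZ, mem_filter, mem_filter]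
    have h2 : b ∈ Fo (Tn D.X n (T1Z D Z)) (fun v => c1Z D Z v.1)
        (Fp (xt D.G D.X) D.X D.t n) v ↔ b ∈ Fp (xt D.G D.X) D.X D.t n v ∨ At D Z v.1 b := by
      rw [← mem_TnT1 hZ hb]
      unfold Fo
      split_ifs with h3
      · rw [mem_insert]
        constructor
        · rintro (h | h)
          · exact Or.inr ⟨h3, h.symm⟩
          · exact Or.inl h
        · rintro (h | h)
          · exact Or.inr h
          · exact Or.inl h.2.symm
      · constructor
        · exact Or.inl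
        · rintro (h | h)
          · exact h
          · exact absurd h.1 h3
    rw [h2]
    simp only [mem_univ, true_and]
    constructor
    · rintro ⟨h3, h4 | h4⟩
      · exact Or.inl ⟨h3, h4⟩
      · refine Or.inr ?_
        cases h5 : ptn D.X.P n v
        · exact Or.inl ⟨h3, rfl, h4⟩
        · exact Or.inr ⟨h3, rfl, h4⟩
    · rintro (h | h | h)
      · exact ⟨h.1, Or.inl h.2⟩
      · exact ⟨h.1, Or.inr h.2.2⟩
      · exact ⟨h.1, Or.inr h.2.2⟩
  have h2 : Disjoint (univ.filter (fun v => sdn D.X.P n v = β ∧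
      b ∈ Fp (xt D.G D.X) D.X D.t n v)) (ZT D Z n β false b ∪ ZT D Z n β true b) := by
    rw [disjoint_left]
    intro v hv hv'
    have h3 : b ∈ Fp (xt D.G D.X) D.X D.t n v := (mem_filter.1 hv).2.2
    have h4 : At D Z v.1 b := by
      rcases mem_union.1 hv' with h | h
      · exact ((mem_ZT hZ).1 h).2.2
      · exact ((mem_ZT hZ).1 h).2.2
    exact (hZ.avA h4).2.1 h3
  have h3 : Disjoint (ZT D Z n β false b) (ZT D Z n β true b) := by
    rw [disjoint_left]
    intro v hv hv'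
    have h4 := ((mem_ZT hZ).1 hv).2.1
    have h5 := ((mem_ZT hZ).1 hv').2.1
    rw [h4] at h5
    cases h5
  unfold cn
  rw [h1, card_union_of_disjoint h2, card_union_of_disjoint h3, card_ZT' hZ hn _ _ (P_lt hb),
    card_ZT' hZ hn _ _ (P_lt hb), hq.p1 n hn β b hb]

theorem bal (hZ : Zs D U cR q rg Z) (hq : D.Dem q) {n : Fin N} (hn : D.X.P.ty n = Ty.B)
    (β : Bool) {b : ℕ} (hb : b ∈ D.P n) :
    need (Fo (Tn D.X n (T1Z D Z)) (fun v => c1Z D Z v.1) (Fp (xt D.G D.X) D.X D.t n))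
      (sdn D.X.P n) β b = 0 := by
  have h1 := sid_us hZ hq hn β hb
  have h2 := sid_us hZ hq hn (!β) hb
  unfold OD.nd at h1 h2
  rw [need_cn] at h1 h2
  rw [need_cn, h1, h2, Bool.not_not]
  omega

theorem nd_add (n : Fin N) (b : ℕ) : D.nd n false b + D.nd n true b = (D.sn n b).natAbs := by
  unfold OD.nd OD.sn
  rw [need_cn, need_cn, sg_cn]
  simp only [Bool.not_false, Bool.not_true]
  omega

theorem T1_card (hZ : Zs D U cR q rg Z) (hq : D.Dem q) {n : Fin N} (hn : D.X.P.ty n = Ty.B)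
    (b : ℕ) : (b ∈ D.P n → ((Tn D.X n (T1Z D Z)).filter (fun v => c1Z D Z v.1 = b)).card ≤
      (D.sn n b).natAbs) ∧
    (b ∉ D.P n → ((Tn D.X n (T1Z D Z)).filter (fun v => c1Z D Z v.1 = b)).card = 0) := by
  constructor
  · intro hb
    have h1 : (Tn D.X n (T1Z D Z)).filter (fun v => c1Z D Z v.1 = b) ⊆
        (ZT D Z n false false b ∪ ZT D Z n false true b) ∪
          (ZT D Z n true false b ∪ ZT D Z n true true b) := by
      intro v hv
      have h2 := (mem_TnT1 hZ hb).1 (mem_filter.1 hv)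
      simp only [mem_union, mem_ZT hZ]
      cases h3 : sdn D.X.P n v <;> cases h4 : ptn D.X.P n v <;> simp [h2]
    have h2 := (card_le_card h1).trans (card_union_le _ _)
    have h3 := card_union_le (ZT D Z n false false b) (ZT D Z n false true b)
    have h4 := card_union_le (ZT D Z n true false b) (ZT D Z n true true b)
    rw [card_ZT' hZ hn _ _ (P_lt hb), card_ZT' hZ hn _ _ (P_lt hb)] at h3 h4
    rw [hq.p1 n hn _ b hb] at h3 h4
    rw [← nd_add]
    omega
  · intro hb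
    rw [card_eq_zero, filter_eq_empty_iff]
    intro v hv h
    have h1 := (hZ.mem_T1 (mem_filter.1 hv).2).1
    rw [h, v.2.2] at h1
    exact hb h1

theorem T1_qtr (hZ : Zs D U cR q rg Z) {n : Fin N} (hn : D.X.P.ty n = Ty.B)
    (β i : Bool) : (Tn D.X n (T1Z D Z) ∩ qtr (sdn D.X.P n) (ptn D.X.P n) β i).card =
      ∑ b ∈ D.P n, q n β i b := by
  have h1 : Tn D.X n (T1Z D Z) ∩ qtr (sdn D.X.P n) (ptn D.X.P n) β i =
      (D.P n).biUnion fun b => ZT D Z n β i b := by
    ext v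
    rw [mem_inter, mem_biUnion]
    unfold qtr
    rw [mem_filter]
    constructor
    · rintro ⟨h2, _, h3, h4⟩
      have h5 := hZ.mem_T1 (mem_filter.1 h2).2
      rw [v.2.2] at h5
      exact ⟨_, h5.1, (mem_ZT hZ).2 ⟨h3, h4, h5.2⟩⟩
    · rintro ⟨b, hb, h2⟩
      obtain ⟨h3, h4, h5⟩ := (mem_ZT hZ).1 h2
      exact ⟨((mem_TnT1 hZ hb).2 h5).1, mem_univ _, h3, h4⟩
  rw [h1, card_biUnion]
  · exact sum_congr rfl fun b hb => card_ZT' hZ hn β i (P_lt hb)
  · intro b _ b' _ hbb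
    show Disjoint (ZT D Z n β i b) (ZT D Z n β i b')
    rw [disjoint_left]
    intro v hv hv'
    exact hbb (hZ.uniq ((mem_ZT hZ).1 hv).2.2 ((mem_ZT hZ).1 hv').2.2)

theorem T2_sub (hZ : Zs D U cR q rg Z) {n : Fin N} (hn : D.X.P.ty n = Ty.B) (i : Bool) {b : ℕ}
    (hb : b < D.d + 2) (hP : b ∉ D.P n) :
    q n false i b ≤ ((Tn D.X n (T2Z D Z)).filter
      (fun v => ptn D.X.P n v = i ∧ c1Z D Z v.1 = b)).card := by
  rw [← card_ZT' hZ hn false i hb]
  refine card_le_card fun v hv => ?_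
  obtain ⟨h1, h2, h3⟩ := (mem_ZT hZ).1 hv
  refine mem_filter.2 ⟨mem_filter.2 ⟨mem_univ _, mem_filter.2 ⟨mem_univ _, b, ?_, h3⟩⟩, h2,
    hZ.c1_eq h3⟩
  rw [v.2.2]
  exact hP

/-- the slots are not at both ends of an edge -/
theorem At_adj (hZ : Zs D U cR q rg Z) (hq : D.Dem q) {v w : V} {b : ℕ} (h : At D Z v b)
    (h' : At D Z w b) (hvw : D.G.Adj v w) : False := by
  have hv := (hZ.avA h).1
  have hw := (hZ.avA h').1
  by_cases hth : (thin D.G D.X.P).Adj v w
  · exact hZ.cf _ _ _ _ _ _ b v h w h' ⟨hth, hv, hw⟩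
  · have hbk : (bulk D.G D.X.P).Adj v w := by
      by_contra h1
      exact hth ⟨hvw, h1⟩
    have h1 := hZ.qpos h
    have h2 := hZ.qpos h'
    rw [← hbk.2.2.2.1] at h2
    exact q_opp' hq (hbk.2.2.2.2 hv.2) h1 h2

theorem pcc (hZ : Zs D U cR q rg Z) (hq : D.Dem q) {c0 : V → ℕ}
    (h1 : ∀ v, InT D.X Ty.B v → c0 v ∉ BnZ D U cR Z v)
    (h2 : ∀ v w, InT D.X Ty.B v → InT D.X Ty.B w → D.G.Adj v w → c0 v ≠ c0 w)
    {v w : V} (hv : InT D.X Ty.B v) (hw : InT D.X Ty.B w) (hvw : D.G.Adj v w) :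
    Disjoint (oc c0 (c1Z D Z) (T1Z D Z) (T2Z D Z) v) (oc c0 (c1Z D Z) (T1Z D Z) (T2Z D Z) w) := by
  rw [disjoint_left]
  intro b hb hb'
  rcases hZ.mem_oc hb with e1 | e1
  · rcases hZ.mem_oc hb' with e2 | e2
    · exact h2 v w hv hw hvw (e1.symm.trans e2)
    · refine h1 v hv ?_
      rw [← e1]
      exact mem_filter.2 ⟨mem_range.2 (hZ.lt e2), Or.inl ⟨w, hvw, e2⟩⟩
  · rcases hZ.mem_oc hb' with e2 | e2
    · refine h1 w hw ?_
      rw [← e2]
      exact mem_filter.2 ⟨mem_range.2 (hZ.lt e1), Or.inl ⟨v, hvw.symm, e1⟩⟩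
    · exact At_adj hZ hq e1 e2 hvw

theorem unm (hZ : Zs D U cR q rg Z) (hI : D.I0 rg) {n : Fin N} (hn : D.X.P.ty n = Ty.B)
    (v : Ts D.X.P n) : (D.d : ℝ) / 1000 ≤
    (((nb (bk D.G D.X.P n) v ∩ prt (ptn D.X.P n) (ptn D.X.P n v)) \
      (Tn D.X n (T1Z D Z) ∪ Tn D.X n (T2Z D Z))).card : ℝ) := by
  refine (hI.r0 n hn v).trans ?_
  have h1 : (nb (bk D.G D.X.P n) v ∩ prt (ptn D.X.P n) (ptn D.X.P n v)).filter
      (fun w => rg w.1 = 0) ⊆ (nb (bk D.G D.X.P n) v ∩ prt (ptn D.X.P n) (ptn D.X.P n v)) \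
      (Tn D.X n (T1Z D Z) ∪ Tn D.X n (T2Z D Z)) := by
    intro w hw
    obtain ⟨h2, h3⟩ := mem_filter.1 hw
    refine mem_sdiff.2 ⟨h2, fun h4 => ?_⟩
    have h5 : At D Z w.1 (c1Z D Z w.1) := by
      rcases mem_union.1 h4 with h | h
      · exact (hZ.mem_T1 (mem_filter.1 h).2).2
      · exact (hZ.mem_T2 (mem_filter.1 h).2).2
    exact hZ.r0 _ _ _ _ w.1 h5 h3
  exact_mod_cast card_le_card h1

/-- `Z` in the same cluster -/
theorem near_card (hZ : Zs D U cR q rg Z) (hq : D.Dem q) {M k b : ℕ} {e : ℝ}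
    (hM : (univ.filter (fun n => ∃ v, v ∉ D.X.P.V0 ∧ D.X.P.pc v = n ∧
      D.X.cq v = some k)).card ≤ M) (hb : b ∉ D.Hd e k) :
    (univ.filter (fun w => At D Z w b ∧ D.X.cq w = some k)).card ≤
      4 * (M * (D.X1 + 5 * D.K + 5)) := by
  by_cases hlt : D.d + 2 ≤ b
  · have h1 : univ.filter (fun w => At D Z w b ∧ D.X.cq w = some k) = ∅ := by
      rw [filter_eq_empty_iff]
      rintro w _ ⟨h, _⟩
      have := hZ.lt h
      omega
    rw [h1, card_empty]
    exact Nat.zero_le _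
  set MM := univ.filter (fun n => ∃ v, v ∉ D.X.P.V0 ∧ D.X.P.pc v = n ∧ D.X.cq v = some k)
  have h1 : univ.filter (fun w => At D Z w b ∧ D.X.cq w = some k) ⊆
      MM.biUnion fun n => (Z n false false b ∪ Z n false true b) ∪
        (Z n true false b ∪ Z n true true b) := by
    intro w hw
    obtain ⟨_, h2, h3⟩ := mem_filter.1 hw
    refine mem_biUnion.2 ⟨D.X.P.pc w, mem_filter.2 ⟨mem_univ _, w, (hZ.avA h2).1.1, rfl, h3⟩, ?_⟩
    unfold At at h2
    simp only [mem_union]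
    cases h4 : D.X.P.sd w <;> cases h5 : D.X.P.pt w <;> rw [h4, h5] at h2 <;> simp [h2]
  have h2 : ∀ n ∈ MM, ∀ β i, (Z n β i b).card ≤ D.X1 + 5 * D.K + 5 := by
    intro n hn β i
    obtain ⟨_, v, hv1, hv2, hv3⟩ := mem_filter.1 hn
    by_cases hB : D.X.P.ty n = Ty.B
    · rw [hZ.cd n β i b hB (by omega)]
      have h3 : D.nd n β b ≤ D.X1 := by
        by_contra h4
        refine hb (mem_filter.2 ⟨mem_range.2 (by omega), Or.inl ⟨n, β, hB, ?_, by omega⟩⟩)
        exact ⟨v, mem_pVA.2 ⟨hv1, hv2⟩, hv3⟩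
      refine hq.q3 n β i b ?_ ?_
      · unfold OD.kc
        split_ifs <;> omega
      · unfold OD.kc
        split_ifs <;> omega
    · have h3 : Z n β i b = ∅ := by
        rw [eq_empty_iff_forall_notMem]
        intro w hw
        obtain ⟨e1, e2, e3, e4, e5⟩ := hZ.mem hw
        have := (hZ.avA e4).1.2
        rw [e1] at this
        exact hB this
      rw [h3, card_empty]
      exact Nat.zero_le _
  calc (univ.filter (fun w => At D Z w b ∧ D.X.cq w = some k)).card
      ≤ ∑ n ∈ MM, ((Z n false false b ∪ Z n false true b) ∪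
          (Z n true false b ∪ Z n true true b)).card := (card_le_card h1).trans card_biUnion_le
    _ ≤ ∑ n ∈ MM, 4 * (D.X1 + 5 * D.K + 5) := by
        refine sum_le_sum fun n hn => ?_
        have e0 := card_union_le (Z n false false b ∪ Z n false true b)
          (Z n true false b ∪ Z n true true b)
        have e1 := card_union_le (Z n false false b) (Z n false true b)
        have e2 := card_union_le (Z n true false b) (Z n true true b)
        have e3 := h2 n hn false false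
        have e4 := h2 n hn false true
        have e5 := h2 n hn true false
        have e6 := h2 n hn true true
        omega
    _ = MM.card * (4 * (D.X1 + 5 * D.K + 5)) := by rw [sum_const, smul_eq_mul]
    _ ≤ M * (4 * (D.X1 + 5 * D.K + 5)) := Nat.mul_le_mul_right _ hM
    _ = _ := by ring

end

end Pool.Agent.Work.MP_db9399_oc.helper61
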